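import Mathlib

set_option autoImplicit false

namespace Pool.Agent.Results.MP_b6f08f_co.No

open Finset

/-- The tribes function on `s` blocks of size `w` equals one. -/
def Tribes {s w : ℕ} (x : Fin s → Fin w → Bool) : Prop := ∃ i, ∀ j, x i j = true

instance {s w : ℕ} : DecidablePred (@Tribes s w) := fun _ => inferInstanceAs (Decidable (∃ _, _))

/-- Hamming distance. -/
def ham {s w : ℕ} (x y : Fin s → Fin w → Bool) : ℕ := #{p : Fin s × Fin w | x p.1 p.2 ≠ y p.1 p.2}

/-- `q` couples the uniform measure on the zero set with the uniform measure on the one set. -/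
def Coupling {s w : ℕ} (q : (Fin s → Fin w → Bool) → (Fin s → Fin w → Bool) → ℝ) : Prop :=
  (∀ x y, 0 ≤ q x y) ∧
  (∀ x, ∑ y, q x y = if Tribes x then 0 else 1 / (#{z : Fin s → Fin w → Bool | ¬ Tribes z} : ℝ)) ∧
  ∀ y, ∑ x, q x y = if Tribes y then 1 / (#{z : Fin s → Fin w → Bool | Tribes z} : ℝ) else 0

theorem pi_sum {s : ℕ} {B : Type} [DecidableEq B] (T : Finset B) (g : B → ℝ) (i : Fin s) :
    #T * ∑ x ∈ Fintype.piFinset fun _ : Fin s => T, g (x i) =
      #(Fintype.piFinset fun _ : Fin s => T) * ∑ b ∈ T, g b := by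
  have h := prod_univ_sum (fun _ : Fin s => T) fun j b => if j = i then g b else 1
  simp only [prod_ite_eq', mem_univ, if_true] at h
  rw [← h, Fintype.card_piFinset, ← mul_prod_erase _ _ (mem_univ i), ← mul_prod_erase _ _ (mem_univ i),
    prod_congr rfl (g := fun _ => (#T : ℝ)) fun j hj => by simp [ne_of_mem_erase hj]]
  simp
  ring

/-- signed weight of a block -/
def g {w : ℕ} (b : Fin w → Bool) : ℝ := ∑ j, if b j then 1 else -1

theorem g_sum (w : ℕ) : ∑ b : Fin w → Bool, g b = 0 := by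
  have h := (Equiv.sum_comp (Function.Involutive.toPerm (fun (b : Fin w → Bool) j => !b j)
    fun b => by simp) g).symm
  have : ∀ b : Fin w → Bool, g (fun j => !b j) = - g b := fun b => by
    rw [g, g, ← sum_neg_distrib]
    exact sum_congr rfl fun j _ => by cases b j <;> simp
  simp only [Function.Involutive.coe_toPerm, this, sum_neg_distrib] at h
  linarith

theorem result (w s : ℕ) (hw : 1 ≤ w)
    (hs : IsGreatest {t : ℕ | 1 - (1 - 1 / 2 ^ w : ℝ) ^ t ≤ 1 / 2} s) :
    (∃ q, @Coupling s w q) ∧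
      ∀ q, @Coupling s w q → (w : ℝ) / 8 ≤ ∑ x, ∑ y, ham x y * q x y := by
  have N2 : (2 : ℝ) ≤ 2 ^ w := by simpa using pow_le_pow_right₀ (one_le_two (α := ℝ)) hw
  have s1 : 1 ≤ s := hs.2 (by
    simp only [Set.mem_ofPred_eq, pow_one, sub_sub_cancel]
    exact one_div_le_one_div_of_le two_pos N2)
  have s2 : (2 : ℝ) ^ w ≤ 4 * s := by
    have a : ¬ (1 - (1 - 1 / 2 ^ w : ℝ) ^ (s + 1) ≤ 1 / 2) := fun h => by have := hs.2 h; omega
    have b := one_add_mul_le_pow (a := -(1 / 2 ^ w : ℝ)) (by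
      have := one_div_le_one_div_of_le two_pos N2; linarith) (s + 1)
    have c : (1 : ℝ) / 2 < (s + 1) / 2 ^ w := by
      rw [← sub_eq_add_neg] at b; push_cast at b; rw [div_eq_mul_one_div (s + 1 : ℝ)]; linarith
    rw [div_lt_div_iff₀ two_pos (by positivity)] at c
    have : (1 : ℝ) ≤ s := by exact_mod_cast s1
    linarith
  obtain ⟨T, hT⟩ : ∃ T : Finset (Fin w → Bool), T = univ.erase fun _ => true := ⟨_, rfl⟩
  have cT : (#T : ℝ) = 2 ^ w - 1 := by
    rw [hT, card_erase_of_mem (mem_univ _), Nat.cast_pred (card_pos.2 univ_nonempty)]; simp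
  have gT : ∑ b ∈ T, g b = -w := by
    have := g_sum w
    rw [← add_sum_erase _ _ (mem_univ fun _ => true), ← hT] at this
    simp only [g, if_true, sum_const, card_univ, Fintype.card_fin, nsmul_eq_mul, mul_one] at this ⊢
    linarith
  have hZ : ({z : Fin s → Fin w → Bool | ¬ Tribes z} : Finset _) = Fintype.piFinset fun _ => T := by
    ext z; simp [Tribes, hT, funext_iff]
  have z0 : (0 : ℝ) < #{z : Fin s → Fin w → Bool | ¬ Tribes z} :=
    Nat.cast_pos.2 (card_pos.2 ⟨fun _ _ => false, by simp [Tribes]; exact fun _ => ⟨⟨0, hw⟩⟩⟩)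
  have a0 : (0 : ℝ) < #{z : Fin s → Fin w → Bool | Tribes z} :=
    Nat.cast_pos.2 (card_pos.2 ⟨fun _ _ => true, by simp [Tribes]; exact ⟨⟨0, s1⟩⟩⟩)
  constructor
  · refine ⟨fun x y => (if Tribes x then 0 else 1 / (#{z : Fin s → Fin w → Bool | ¬ Tribes z} : ℝ)) *
      if Tribes y then 1 / (#{z : Fin s → Fin w → Bool | Tribes z} : ℝ) else 0,
      fun x y => by beta_reduce; split_ifs <;> positivity, fun x => ?_, fun y => ?_⟩
    · rw [← mul_sum, ← sum_filter, sum_const, nsmul_eq_mul, mul_one_div_cancel a0.ne', mul_one]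
    · rw [← sum_mul, sum_ite, sum_const, sum_const, nsmul_eq_mul, nsmul_eq_mul,
        mul_one_div_cancel z0.ne']
      simp
  rintro q ⟨q0, q1, q2⟩
  obtain ⟨F, hF⟩ : ∃ F : (Fin s → Fin w → Bool) → ℝ, ∀ x, F x = ∑ i, g (x i) := ⟨_, fun _ => rfl⟩
  have lip : ∀ x y, F y - F x ≤ 2 * ham x y := fun x y => by
    rw [hF, hF, ham, card_filter, Fintype.sum_prod_type, ← sum_sub_distrib]
    push_cast
    rw [mul_sum]
    refine sum_le_sum fun i _ => ?_
    rw [g, g, ← sum_sub_distrib, mul_sum]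
    exact sum_le_sum fun j _ => by cases x i j <;> cases y i j <;> norm_num
  have tot : ∑ x, F x = 0 := by
    simp only [hF]
    rw [sum_comm]
    refine sum_eq_zero fun i _ => ?_
    have := pi_sum univ (@g w) i
    rw [g_sum, mul_zero, Fintype.piFinset_univ] at this
    exact (mul_eq_zero.1 this).resolve_left (Nat.cast_pos.2 (card_pos.2 univ_nonempty)).ne'
  have sZ : (2 ^ w - 1) * ∑ x with ¬ Tribes x, F x =
      -(s * w) * #{z : Fin s → Fin w → Bool | ¬ Tribes z} := by
    simp only [hF]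
    rw [sum_comm, mul_sum, hZ, ← cT, sum_congr rfl fun i _ => pi_sum T g i, gT]
    simp; ring
  rw [← sum_filter_add_sum_filter_not univ Tribes] at tot
  have e : ∑ x, ∑ y, (F y - F x) * q x y =
      (∑ x with Tribes x, F x) / #{z : Fin s → Fin w → Bool | Tribes z} -
      (∑ x with ¬ Tribes x, F x) / #{z : Fin s → Fin w → Bool | ¬ Tribes z} := by
    simp only [sub_mul, sum_sub_distrib]
    rw [sum_comm]
    simp only [← mul_sum, q1, q2, sum_div, sum_filter]
    congr 1 <;> exact sum_congr rfl fun x _ => by split_ifs <;> ring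
  have le : ∑ x, ∑ y, (F y - F x) * q x y ≤ 2 * ∑ x, ∑ y, ham x y * q x y := by
    simp only [mul_sum, ← mul_assoc]
    exact sum_le_sum fun x _ => sum_le_sum fun y _ => mul_le_mul_of_nonneg_right (lip x y) (q0 x y)
  generalize (∑ x with ¬ Tribes x, F x) = SZ at *
  generalize (#{z : Fin s → Fin w → Bool | ¬ Tribes z} : ℝ) = Z at *
  have w0 : (0 : ℝ) ≤ w := by positivity
  have k : SZ / Z ≤ -(w / 4) := by
    rw [div_le_iff₀ z0]
    refine le_of_mul_le_mul_left ?_ (show (0 : ℝ) < 2 ^ w - 1 by linarith)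
    rw [sZ]
    nlinarith [mul_nonneg w0 z0.le]
  have k' : SZ ≤ 0 := by
    have := (div_le_iff₀ z0).1 k
    nlinarith [mul_nonneg w0 z0.le]
  have := div_nonneg (show 0 ≤ ∑ x with Tribes x, F x by linarith) a0.le
  linarith

end Pool.Agent.Results.MP_b6f08f_co.No
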